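import Pool.Agent.Y503.RB.Def2
import Pool.Agent.Y503.RB.Disc

/-!
# Project RB (helper503), job BP: a parametrisation composed with `push ξ`

Proved by helper434.
-/

set_option autoImplicit false

namespace Pool.Agent.Y434.RB

open scoped ContDiff RealInnerProductSpace ENNReal Topology
open MeasureTheory Set Metric Pool.Agent.Y503.RB

theorem bp_of (hTh : St_THETA) (hTr : St_TRANS) (hD : St_DIFFEO) : St_BP := by
  intro ξ φ U hξ h hne
  have hat : ∀ z ∈ U, ContDiffAt ℝ ∞ φ z :=
    fun z hz => h.smooth.contDiffAt (h.isOpen.mem_nhds hz)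
  refine ⟨h.isOpen, ?_, ?_, ?_, ?_⟩
  · intro z hz
    exact ((hTh ξ hξ (φ z) (hne z hz)).2.2.2.1.comp z (hat z hz)).contDiffWithinAt
  · intro z hz
    exact push_imm hTh hξ (hat z hz) (hne z hz) (h.imm z hz)
  · refine ⟨?_, ?_⟩
    · rw [Topology.isInducing_iff_nhds]
      rintro ⟨z, hz⟩
      have hc : ContinuousAt (push ξ) (φ z) :=
        (hTh ξ hξ (φ z) (hne z hz)).2.2.2.1.continuousAt
      have hp : ContinuousAt (pull ξ) (push ξ (φ z)) :=
        (hTh ξ hξ (φ z) (hne z hz)).2.2.2.2.continuousAt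
      have he : pull ξ (push ξ (φ z)) = φ z := (hTh ξ hξ (φ z) (hne z hz)).2.2.1
      apply le_antisymm
      · rw [← Filter.tendsto_iff_comap]
        have h1 : Filter.Tendsto (push ξ) (𝓝 (φ z)) (𝓝 (push ξ (φ z))) := hc
        have h2 : Filter.Tendsto (fun w : U => φ w) (𝓝 (⟨z, hz⟩ : U)) (𝓝 (φ z)) :=
          h.emb.continuous.tendsto (⟨z, hz⟩ : U)
        exact h1.comp h2
      · rw [h.emb.isInducing.nhds_eq_comap ⟨z, hz⟩, ← Filter.tendsto_iff_comap]
        have e1 : (fun w : U => φ w) = (pull ξ) ∘ (fun w : U => push ξ (φ w)) := by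
          funext w
          exact ((hTh ξ hξ (φ w) (hne w w.2)).2.2.1).symm
        rw [e1]
        have h1 : Filter.Tendsto (pull ξ) (𝓝 (push ξ (φ z))) (𝓝 (φ z)) := by
          have h2 : Filter.Tendsto (pull ξ) (𝓝 (push ξ (φ z))) (𝓝 (pull ξ (push ξ (φ z)))) := hp
          rwa [he] at h2
        show Filter.Tendsto ((pull ξ) ∘ (fun w : U => push ξ (φ w)))
          (Filter.comap (fun w : U => push ξ (φ w)) (𝓝 (push ξ (φ z)))) (𝓝 (φ z))
        exact h1.comp Filter.tendsto_comap
    · intro a b hab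
      apply h.emb.injective
      show φ a = φ b
      rw [← (hTh ξ hξ (φ a) (hne a a.2)).2.2.1, ← (hTh ξ hξ (φ b) (hne b b.2)).2.2.1]
      exact congrArg (pull ξ) hab
  · intro z hz h1
    have h2 : ‖φ z‖ = 1 := ((hD ξ hξ).2.2.2 (φ z) (hne z hz)).2.2.1 h1
    have h3 := h.trans z hz h2
    obtain ⟨v, hv⟩ : ∃ v, 0 < fderiv ℝ (fun w => ‖φ w‖ ^ 2) z v := by
      by_contra hc
      push Not at hc
      apply h3
      ext v
      have a := hc v
      have b := hc (-v)
      rw [map_neg] at b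
      rw [_root_.zero_apply]
      linarith
    have h4 := hTr ξ φ z v hξ (hat z hz) h2 (hne z hz) hv
    intro h5
    rw [h5, _root_.zero_apply] at h4
    exact lt_irrefl _ h4

end Pool.Agent.Y434.RB
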